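import Pool.Agent.W366.Stu.LeafEx

/-!
# Sliding along the leaves to the starting line
-/

set_option autoImplicit false
set_option linter.all false

open Set Filter Topology Pool.Agent.W811.Stu

namespace Pool.Agent.W366.Stu

lemma pos_of_ne {g : ℝ → ℝ} (hg : Continuous g) (hne : ∀ s, g s ≠ 0) {s0 : ℝ} (h0 : 0 < g s0)
    (s : ℝ) : 0 < g s := by
  by_contra hcon
  push Not at hcon
  obtain ⟨u, hu⟩ := mem_range_of_exists_le_of_exists_ge hg ⟨s, hcon⟩ ⟨s0, h0.le⟩
  exact hne u hu

theorem exit (h : TFlow) (h' : TLeafEx) : TExit := by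
  intro lam hlam d hd m hm κ hκ E0 q J
  set δ : ℝ := lam / 2 with hδdef
  have hδ : δ ≠ 0 := by rw [hδdef]; exact div_ne_zero hlam two_ne_zero
  obtain ⟨Φ, F⟩ := exists_fl h d m
  -- the path
  obtain ⟨γ, hγc, hγ0, hγ1, hγm⟩ : ∃ γ : ℝ → ℝ × ℝ × ℝ, Continuous γ ∧ γ 0 = toL (lin lam E0) ∧
      γ 1 = toL q ∧ ∀ s, γ s ∈ Reg δ κ d m := by
    refine ⟨fun s => J.somePath.extend s, J.somePath.continuous_extend, ?_, ?_, ?_⟩
    · exact J.somePath.extend_zero
    · exact J.somePath.extend_one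
    · intro s
      obtain ⟨t, ht⟩ : J.somePath.extend s ∈ range J.somePath := by
        rw [← Path.extend_range J.somePath]; exact mem_range_self s
      show J.somePath.extend s ∈ _
      rw [← ht]
      exact J.somePath_mem t
  set Q : ℝ → P3 := fun s => ofL (γ s) with hQ
  have hQS : ∀ s, OnS δ (Q s) := fun s => (hγm s).1
  have hQz : ∀ s, |(Q s).z| ≤ 1 := fun s => (hγm s).2.1
  have hQf : ∀ s, |(orb d (Q s) m).y| ≤ κ := fun s => (hγm s).2.2
  have hQf' : ∀ s, |(orb d (Q s) m).y| < cc δ := fun s => (hQf s).trans_lt hκ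
  have hQ0 : Q 0 = lin lam E0 := by rw [hQ]; simp only; rw [hγ0, ofL_toL]
  have hQ1 : Q 1 = q := by rw [hQ]; simp only; rw [hγ1, ofL_toL]
  have hVc : Continuous fun s => Vy d m (Q s) := (cont_Vy d m).comp hγc
  have hVne : ∀ s, Vy d m (Q s) ≠ 0 := fun s => (cmp1 hδ hd hm (hQS s) (hQz s) (hQf' s)).2.2
  obtain ⟨σ, hσ, hσv⟩ : ∃ σ : ℝ, (σ = 1 ∨ σ = -1) ∧ 0 < σ * Vy d m (Q 0) := by
    rcases lt_or_gt_of_ne (hVne 0) with h1 | h1
    · exact ⟨-1, Or.inr rfl, by linarith⟩
    · exact ⟨1, Or.inl rfl, by linarith⟩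
  have hσ0 : σ ≠ 0 := by rcases hσ with rfl | rfl <;> norm_num
  have hσV : ∀ s, 0 < σ * Vy d m (Q s) := fun s =>
    pos_of_ne (hVc.const_mul σ) (fun s => mul_ne_zero hσ0 (hVne s)) hσv s
  have hex : ∀ s, ∃ T, 0 ≤ T ∧ 1 * (Φ (σ * T) (Q s)).z = 1 ∧
      ∀ t ∈ Icc 0 T, |(Φ (σ * t) (Q s)).z| ≤ 1 ∧ 0 < 1 * σ * Vy d m (Φ (σ * t) (Q s)) := fun s =>
    exists_exit F hδ hd hm (hQS s) (hQz s) (hQf' s) (Or.inl rfl) hσ (by
      rw [one_mul]; exact hσV s)
  choose T hT0 hT1 hT2 using hex
  -- the height along the flow lines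
  set Z : ℝ → ℝ → ℝ := fun t s => 1 * (Φ (σ * t) (Q s)).z with hZ
  have hZder : ∀ t s, HasDerivAt (fun t => Z t s) (1 * σ * Vy d m (Φ (σ * t) (Q s))) t :=
    fun t s => F.hz (Q s) 1 σ t
  have hZc : Continuous fun v : ℝ × ℝ => Z v.2 v.1 := by
    have h1 : Continuous fun v : ℝ × ℝ => toL (Φ (σ * v.2) (ofL (γ v.1))) :=
      F.cont.comp ((continuous_const.mul continuous_snd).prodMk (hγc.comp continuous_fst))
    exact continuous_const.mul (cont_toL_z h1)
  have hstrict : ∀ s, StrictMonoOn (fun t => Z t s) (Icc 0 (T s)) := by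
    intro s
    refine strictMonoOn_of_deriv_pos (convex_Icc _ _)
      (fun t _ => (hZder t s).continuousAt.continuousWithinAt) ?_
    intro t ht
    rw [interior_Icc] at ht
    rw [(hZder t s).deriv]
    exact (hT2 s t (Ioo_subset_Icc_self ht)).2
  have hlt : ∀ s, ∀ t, 0 ≤ t → t < T s → Z t s < 1 := by
    intro s t ht ht'
    have := hstrict s ⟨ht, ht'.le⟩ (right_mem_Icc.2 (hT0 s)) ht'
    simp only at this
    rw [show Z (T s) s = 1 from hT1 s] at this
    exact this
  have hafter : ∀ s, ∀ b, T s < b → ∃ t, T s < t ∧ t < b ∧ 1 < Z t s := by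
    intro s b hb
    have hvc : Continuous fun t => 1 * σ * Vy d m (Φ (σ * t) (Q s)) :=
      (F.contVy (Q s) σ).const_mul (1 * σ)
    have hpos : 0 < 1 * σ * Vy d m (Φ (σ * T s) (Q s)) :=
      (hT2 s (T s) (right_mem_Icc.2 (hT0 s))).2
    have hev : ∀ᶠ t in 𝓝 (T s), 0 < 1 * σ * Vy d m (Φ (σ * t) (Q s)) :=
      hvc.continuousAt.eventually (lt_mem_nhds hpos)
    obtain ⟨η, hη, hη'⟩ := Metric.eventually_nhds_iff.1 hev
    set u : ℝ := min ((T s + b) / 2) (T s + η / 2) with hu
    have hu1 : T s < u := lt_min (by linarith) (by linarith)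
    have hu2 : u < b := (min_le_left _ _).trans_lt (by linarith)
    have hu3 : u ≤ T s + η / 2 := min_le_right _ _
    refine ⟨u, hu1, hu2, ?_⟩
    have hm2 : StrictMonoOn (fun t => Z t s) (Icc (T s) u) := by
      refine strictMonoOn_of_deriv_pos (convex_Icc _ _)
        (fun t _ => (hZder t s).continuousAt.continuousWithinAt) ?_
      intro t ht
      rw [interior_Icc] at ht
      rw [(hZder t s).deriv]
      refine hη' ?_
      rw [Real.dist_eq, abs_lt]
      constructor <;> linarith [ht.1, ht.2]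
    have := hm2 (left_mem_Icc.2 hu1.le) (right_mem_Icc.2 hu1.le) hu1
    simp only at this
    rw [show Z (T s) s = 1 from hT1 s] at this
    exact this
  -- continuity of the exit time
  have hTc : Continuous T := by
    rw [continuous_iff_continuousAt]
    intro s0
    refine tendsto_order.2 ⟨fun a ha => ?_, fun b hb => ?_⟩
    · by_cases ha0 : 0 ≤ a
      · have h1 : ∀ᶠ s in 𝓝 s0, ∀ t ∈ Icc 0 a, Z t s < 1 := by
          refine isCompact_Icc.eventually_forall_of_forall_eventually fun t ht => ?_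
          exact hZc.continuousAt.eventually (gt_mem_nhds (hlt s0 t ht.1 (ht.2.trans_lt ha)))
        filter_upwards [h1] with s hs
        by_contra hcon
        push Not at hcon
        have := hs (T s) ⟨hT0 s, hcon⟩
        rw [show Z (T s) s = 1 from hT1 s] at this
        exact lt_irrefl _ this
      · push Not at ha0
        exact Filter.Eventually.of_forall fun s => ha0.trans_le (hT0 s)
    · obtain ⟨t, ht1, ht2, ht3⟩ := hafter s0 b hb
      have h1 : ∀ᶠ s in 𝓝 s0, 1 < Z t s := by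
        have hc : Continuous fun s => Z t s := hZc.comp (continuous_id.prodMk continuous_const)
        exact hc.continuousAt.eventually (lt_mem_nhds ht3)
      filter_upwards [h1] with s hs
      by_contra hcon
      push Not at hcon
      have h2 := (hT2 s t ⟨(hT0 s0).trans ht1.le, ht2.le.trans hcon⟩).1
      have h3 : Z t s ≤ 1 := by
        show 1 * (Φ (σ * t) (Q s)).z ≤ 1
        rw [one_mul]; exact (abs_le.1 h2).2
      linarith
  -- the end points
  set r : ℝ → P3 := fun s => Φ (σ * T s) (Q s) with hr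
  have hrc : Continuous fun s => toL (r s) :=
    F.cont.comp ((continuous_const.mul hTc).prodMk hγc)
  have hrz : ∀ s, (r s).z = 1 := fun s => by
    have := hT1 s
    rw [one_mul] at this
    exact this
  have hrS : ∀ s, OnS δ (r s) := fun s => F.onS δ _ _ (hQS s)
  have hrf : ∀ s, (orb d (r s) m).y = (orb d (Q s) m).y := fun s => F.lev _ _
  have hD2 : ∀ s, ((r s).x - (r s).y) ^ 2 = δ ^ 2 := by
    intro s
    have h1 := hrS s
    unfold OnS at h1
    rw [hrz s] at h1
    linear_combination h1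
  have hT_zero : ∀ s, (Q s).z = 1 → r s = Q s := by
    intro s hs
    have h1 : T s = 0 := by
      by_contra hne
      have h2 := hlt s 0 le_rfl (lt_of_le_of_ne (hT0 s) (Ne.symm hne))
      have h3 : Z 0 s = 1 := by
        show 1 * (Φ (σ * 0) (Q s)).z = 1
        rw [mul_zero, F.zero, one_mul, hs]
      linarith
    show Φ (σ * T s) (Q s) = Q s
    rw [h1, mul_zero, F.zero]
  have hr0 : r 0 = lin lam E0 := by
    rw [hT_zero 0 (by rw [hQ0]; rfl), hQ0]
  have hD : ∀ s, (r s).x - (r s).y = -δ := by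
    intro s
    have hc : Continuous fun s => -((r s).x - (r s).y) * δ :=
      ((cont_toL_x hrc).sub (cont_toL_y hrc)).neg.mul continuous_const
    have hne : ∀ s, -((r s).x - (r s).y) * δ ≠ 0 := by
      intro s hs
      rcases mul_eq_zero.1 hs with h1 | h1
      · have h2 := hD2 s
        rw [neg_eq_zero.1 h1] at h2
        exact hδ (pow_eq_zero_iff (two_ne_zero)|>.1 (by linarith))
      · exact hδ h1
    have h0 : 0 < -((r 0).x - (r 0).y) * δ := by
      rw [hr0]
      have : -((lin lam E0).x - (lin lam E0).y) * δ = δ ^ 2 := by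
        rw [hδdef]; unfold lin; simp only; ring
      rw [this]
      positivity
    have hp := pos_of_ne hc hne h0 s
    have h3 : ((r s).x - (r s).y - δ) * ((r s).x - (r s).y + δ) = 0 := by
      linear_combination hD2 s
    rcases mul_eq_zero.1 h3 with h4 | h4
    · exfalso
      have h5 : (r s).x - (r s).y = δ := by linarith
      rw [h5] at hp
      nlinarith [mul_self_nonneg δ]
    · linarith
  have hrlin : ∀ s, lin lam (2 * (r s).y) = r s := by
    intro s
    have h1 := hD s
    have h2 := hrz s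
    ext
    · exact h2.symm
    · show 2 * (r s).y / 2 = (r s).y
      ring
    · show (2 * (r s).y - lam) / 2 = (r s).x
      rw [hδdef] at h1
      linarith
  have hec : Continuous fun s => 2 * (r s).y := continuous_const.mul (cont_toL_y hrc)
  refine ⟨2 * (r 1).y, ?_, ?_, ?_⟩
  · refine ⟨fun τ => Φ τ q, 0, σ * T 1, ⟨fun τ _ => F.der q τ, fun τ _ => F.onS δ q τ ?_, ?_,
      fun τ _ => ?_⟩, F.zero q, ?_⟩
    · rw [← hQ1]; exact hQS 1
    · intro τ hτ
      rw [← hQ1]
      rcases hσ with rfl | rfl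
      · rw [uIcc_of_le (by linarith [hT0 1])] at hτ
        have := (hT2 1 τ ⟨hτ.1, by linarith [hτ.2]⟩).1
        rwa [one_mul] at this
      · rw [uIcc_of_ge (by linarith [hT0 1])] at hτ
        have := (hT2 1 (-τ) ⟨by linarith [hτ.2], by linarith [hτ.1]⟩).1
        rwa [show (-1 : ℝ) * -τ = τ by ring] at this
    · show (orb d (Φ τ q) m).y = (orb d (Φ 0 q) m).y
      rw [F.lev, F.lev]
    · rw [hrlin 1]
      show Φ (σ * T 1) q = Φ (σ * T 1) (Q 1)
      rw [hQ1]
  · intro e he
    have h1 : 2 * (r 0).y = E0 := by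
      rw [hr0]
      show 2 * (E0 / 2) = E0
      ring
    have h2 := intermediate_value_uIcc (f := fun s => 2 * (r s).y) (a := 0) (b := 1)
      hec.continuousOn
    rw [h1] at h2
    obtain ⟨s, _, hs⟩ := h2 he
    have hs' : 2 * (r s).y = e := hs
    rw [← hs', hrlin s, hrf s]
    exact hQf s
  · intro E1 hE1
    rw [hT_zero 1 (by rw [hQ1, hE1]; rfl), hQ1, hE1]
    show 2 * (E1 / 2) = E1
    ring

end Pool.Agent.W366.Stu
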