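import Pool.Agent.W811.Stu.Stmts3

/-!
# Flow lines of the leaf field: exit from the strip, existence of complete leaves
-/

set_option autoImplicit false
set_option linter.all false

open Set Pool.Agent.W811.Stu

namespace Pool.Agent.W366.Stu

/-- flow of the leaf field -/
structure Fl (d : ℕ → ℕ) (m : ℕ) (Φ : ℝ → P3 → P3) : Prop where
  zero : ∀ p, Φ 0 p = p
  der : ∀ p t, HasDer (fun s => Φ s p) (LF d m (Φ t p)) t
  onS : ∀ δ p t, OnS δ p → OnS δ (Φ t p)
  lev : ∀ p t, (orb d (Φ t p) m).y = (orb d p m).y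
  cont : Continuous fun v : ℝ × (ℝ × ℝ × ℝ) => toL (Φ v.1 (ofL v.2))

lemma exists_fl (h : TFlow) (d : ℕ → ℕ) (m : ℕ) : ∃ Φ, Fl d m Φ := by
  obtain ⟨Φ, h1, h2, h3, h4, h5⟩ := h d m
  exact ⟨Φ, h1, h2, h3, h4, h5⟩

/-- along a line where `h ≤ 1` the derivative stays positive -/
lemma pos_of_le {h v : ℝ → ℝ} (hd : ∀ t, HasDerivAt h (v t) t) (hv : Continuous v)
    (h0 : -1 ≤ h 0) (v0 : 0 < v 0) (hne : ∀ t, 0 ≤ t → |h t| ≤ 1 → v t ≠ 0) {T : ℝ}
    (hle : ∀ t ∈ Icc 0 T, h t ≤ 1) : ∀ t ∈ Icc 0 T, 0 < v t ∧ h 0 ≤ h t := by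
  have hc : Continuous h := continuous_iff_continuousAt.2 fun t => (hd t).continuousAt
  have mono : ∀ t, 0 ≤ t → (∀ u ∈ Icc 0 t, 0 ≤ v u) → h 0 ≤ h t := by
    intro t ht hnn
    have hm : MonotoneOn h (Icc 0 t) := by
      refine monotoneOn_of_deriv_nonneg (convex_Icc 0 t) hc.continuousOn
        (fun u _ => (hd u).differentiableAt.differentiableWithinAt) ?_
      intro u hu
      rw [interior_Icc] at hu
      rw [(hd u).deriv]
      exact hnn u (Ioo_subset_Icc_self hu)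
    exact hm (left_mem_Icc.2 ht) (right_mem_Icc.2 ht) ht
  have key : ∀ t ∈ Icc 0 T, 0 < v t := by
    intro t1 ht1
    by_contra hcon
    push Not at hcon
    have hcomp : IsCompact (Icc 0 t1 ∩ {t | v t ≤ 0}) :=
      isCompact_Icc.inter_right (isClosed_le hv continuous_const)
    obtain ⟨t2, ⟨ht2, hv2⟩, hleast⟩ := hcomp.exists_isLeast
      ⟨t1, right_mem_Icc.2 ht1.1, hcon⟩
    have hv2' : v t2 ≤ 0 := hv2
    have hpos : ∀ u ∈ Icc 0 t2, u ≠ t2 → 0 < v u := by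
      intro u hu hne'
      by_contra hc2
      push Not at hc2
      have := hleast ⟨⟨hu.1, hu.2.trans ht2.2⟩, hc2⟩
      exact hne' (le_antisymm hu.2 this)
    have ht20 : 0 < t2 := by
      rcases ht2.1.lt_or_eq with h1 | h1
      · exact h1
      · rw [← h1] at hv2'; linarith
    have hv20 : 0 ≤ v t2 := by
      by_contra hc2
      push Not at hc2
      have h3 := intermediate_value_Icc' (a := (0 : ℝ)) (b := t2) ht20.le hv.continuousOn
      obtain ⟨u, hu, hu2⟩ := h3 (show v t2 / 2 ∈ Icc (v t2) (v 0) from ⟨by linarith, by linarith⟩)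
      by_cases hut : u = t2
      · rw [hut] at hu2; linarith
      · have := hpos u hu hut
        linarith
    have hveq : v t2 = 0 := le_antisymm hv2' hv20
    have h4 : h 0 ≤ h t2 := mono t2 ht20.le (by
      intro u hu
      by_cases hut : u = t2
      · rw [hut, hveq]
      · exact (hpos u hu hut).le)
    have h5 : h t2 ≤ 1 := hle t2 ⟨ht20.le, ht2.2.trans ht1.2⟩
    exact hne t2 ht20.le (abs_le.2 ⟨by linarith, h5⟩) hveq
  intro t ht
  exact ⟨key t ht, mono t ht.1 fun u hu => (key u ⟨hu.1, hu.2.trans ht.2⟩).le⟩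

/-- comparison of increments -/
lemma incr_le {h v y w : ℝ → ℝ} {N : ℝ} (hd : ∀ t, HasDerivAt h (v t) t)
    (yd : ∀ t, HasDerivAt y (w t) t) {T : ℝ} (hT : 0 ≤ T) (hw : ∀ t ∈ Icc 0 T, |w t| ≤ N * v t) :
    |y T - y 0| ≤ N * (h T - h 0) := by
  have m1 : MonotoneOn (fun t => N * h t - y t) (Icc 0 T) := by
    refine monotoneOn_of_deriv_nonneg (convex_Icc 0 T)
      (fun t _ => (((hd t).const_mul N).sub (yd t)).continuousAt.continuousWithinAt)
      (fun t _ => (((hd t).const_mul N).sub (yd t)).differentiableAt.differentiableWithinAt) ?_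
    intro t ht
    rw [interior_Icc] at ht
    have h1 : deriv (fun t => N * h t - y t) t = N * v t - w t :=
      (((hd t).const_mul N).sub (yd t)).deriv
    rw [h1]
    have := hw t (Ioo_subset_Icc_self ht)
    linarith [le_abs_self (w t)]
  have m2 : MonotoneOn (fun t => N * h t + y t) (Icc 0 T) := by
    refine monotoneOn_of_deriv_nonneg (convex_Icc 0 T)
      (fun t _ => (((hd t).const_mul N).add (yd t)).continuousAt.continuousWithinAt)
      (fun t _ => (((hd t).const_mul N).add (yd t)).differentiableAt.differentiableWithinAt) ?_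
    intro t ht
    rw [interior_Icc] at ht
    have h1 : deriv (fun t => N * h t + y t) t = N * v t + w t :=
      (((hd t).const_mul N).add (yd t)).deriv
    rw [h1]
    have := hw t (Ioo_subset_Icc_self ht)
    linarith [neg_abs_le (w t)]
  have a1 := m1 (left_mem_Icc.2 hT) (right_mem_Icc.2 hT) hT
  have a2 := m2 (left_mem_Icc.2 hT) (right_mem_Icc.2 hT) hT
  simp only at a1 a2
  rw [abs_le]
  constructor <;> linarith

section flow

variable {δ : ℝ} {d : ℕ → ℕ} {m : ℕ} {Φ : ℝ → P3 → P3}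

lemma cmp1 (hδ : δ ≠ 0) (hd : ∀ k, 1 ≤ d k) (hm : 2 ≤ m) {p : P3} (hS : OnS δ p)
    (hz : |p.z| ≤ 1) (hf : |(orb d p m).y| < cc δ) :
    |(LF d m p).y| ≤ N0 δ 1 * |(LF d m p).z| ∧ |(LF d m p).x| ≤ N0 δ 1 * |(LF d m p).z| ∧
      Vy d m p ≠ 0 := by
  have hδ2 : 0 < δ ^ 2 := by positivity
  have h1 : p.z ^ 2 ≤ 1 := by
    rw [← sq_abs]
    nlinarith [abs_nonneg p.z]
  have h2 : (orb d p m).y ^ 2 < 1 + δ ^ 2 := by
    rw [← cc_sq, ← sq_abs]
    nlinarith [abs_nonneg (orb d p m).y, cc_pos δ]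
  obtain ⟨a, b, c⟩ := cmpY hδ zero_le_one (by linarith) hd hm hS h1 h2
  refine ⟨?_, ?_, c⟩
  · show |-(dorb d p (fH p) m).y| ≤ _
    rw [abs_neg]; exact a
  · show |-(dorb d p (fK p) m).y| ≤ _
    rw [abs_neg]; exact b

lemma Fl.contLine (F : Fl d m Φ) (p : P3) : Continuous fun t => toL (Φ t p) := by
  have := F.cont.comp (continuous_id.prodMk (continuous_const (y := toL p)))
  simpa [Function.comp_def] using this

lemma Fl.hz (F : Fl d m Φ) (p : P3) (ε ρ t : ℝ) :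
    HasDerivAt (fun t => ε * (Φ (ρ * t) p).z) (ε * ρ * Vy d m (Φ (ρ * t) p)) t := by
  have h1 := (F.der p (ρ * t)).1
  have h2 : HasDerivAt (fun t : ℝ => ρ * t) ρ t := by
    simpa using (hasDerivAt_id t).const_mul ρ
  have h3 := (h1.comp t h2).const_mul ε
  have e : ε * ρ * Vy d m (Φ (ρ * t) p) = ε * ((LF d m (Φ (ρ * t) p)).z * ρ) := by
    show ε * ρ * Vy d m (Φ (ρ * t) p) = ε * (Vy d m (Φ (ρ * t) p) * ρ)
    ring
  rw [e]
  exact h3

lemma Fl.hy (F : Fl d m Φ) (p : P3) (ρ t : ℝ) :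
    HasDerivAt (fun t => (Φ (ρ * t) p).y) (ρ * (LF d m (Φ (ρ * t) p)).y) t := by
  have h1 := (F.der p (ρ * t)).2.1
  have h2 : HasDerivAt (fun t : ℝ => ρ * t) ρ t := by
    simpa using (hasDerivAt_id t).const_mul ρ
  have h3 := h1.comp t h2
  rw [mul_comm]
  exact h3

lemma Fl.hx (F : Fl d m Φ) (p : P3) (ρ t : ℝ) :
    HasDerivAt (fun t => (Φ (ρ * t) p).x) (ρ * (LF d m (Φ (ρ * t) p)).x) t := by
  have h1 := (F.der p (ρ * t)).2.2
  have h2 : HasDerivAt (fun t : ℝ => ρ * t) ρ t := by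
    simpa using (hasDerivAt_id t).const_mul ρ
  have h3 := h1.comp t h2
  rw [mul_comm]
  exact h3

lemma contVy : Continuous fun v => Vy d m (ofL v) := cont_Vy d m

lemma Fl.contVy (F : Fl d m Φ) (p : P3) (ρ : ℝ) : Continuous fun t => Vy d m (Φ (ρ * t) p) := by
  have h1 : Continuous fun t : ℝ => toL (Φ (ρ * t) p) :=
    (F.contLine p).comp (continuous_const.mul continuous_id)
  have := (cont_Vy d m).comp h1
  simpa [Function.comp_def] using this

lemma abs_sign {ρ : ℝ} (hρ : ρ = 1 ∨ ρ = -1) : |ρ| = 1 := by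
  rcases hρ with rfl | rfl <;> simp

/-- **exit from the strip** -/
theorem exists_exit (F : Fl d m Φ) (hδ : δ ≠ 0) (hd : ∀ k, 1 ≤ d k) (hm : 2 ≤ m) {p : P3}
    (hS : OnS δ p) (hz : |p.z| ≤ 1) (hf : |(orb d p m).y| < cc δ) {ε ρ : ℝ}
    (hε : ε = 1 ∨ ε = -1) (hρ : ρ = 1 ∨ ρ = -1) (hv : 0 < ε * ρ * Vy d m p) :
    ∃ T, 0 ≤ T ∧ ε * (Φ (ρ * T) p).z = 1 ∧
      ∀ t ∈ Icc 0 T, |(Φ (ρ * t) p).z| ≤ 1 ∧ 0 < ε * ρ * Vy d m (Φ (ρ * t) p) := by
  set h : ℝ → ℝ := fun t => ε * (Φ (ρ * t) p).z with hh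
  set v : ℝ → ℝ := fun t => ε * ρ * Vy d m (Φ (ρ * t) p) with hvdef
  have hder : ∀ t, HasDerivAt h (v t) t := fun t => F.hz p ε ρ t
  have hvc : Continuous v := (F.contVy p ρ).const_mul (ε * ρ)
  have hhc : Continuous h := continuous_iff_continuousAt.2 fun t => (hder t).continuousAt
  have habs : ∀ t, |h t| = |(Φ (ρ * t) p).z| := by
    intro t
    rw [hh]
    simp only
    rw [abs_mul, abs_sign hε, one_mul]
  have hp0 : Φ (ρ * 0) p = p := by rw [mul_zero, F.zero]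
  have h0 : |h 0| ≤ 1 := by rw [habs, hp0]; exact hz
  have v0 : 0 < v 0 := by
    rw [hvdef]
    simp only
    rw [hp0]; exact hv
  have hcmp : ∀ t, |h t| ≤ 1 → |(LF d m (Φ (ρ * t) p)).y| ≤ N0 δ 1 * |(LF d m (Φ (ρ * t) p)).z| ∧
      |(LF d m (Φ (ρ * t) p)).x| ≤ N0 δ 1 * |(LF d m (Φ (ρ * t) p)).z| ∧
      Vy d m (Φ (ρ * t) p) ≠ 0 := by
    intro t ht
    refine cmp1 hδ hd hm (F.onS δ p _ hS) ?_ ?_
    · rw [← habs]; exact ht
    · rw [F.lev]; exact hf
  have hερ : ε * ρ ≠ 0 := by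
    rcases hε with rfl | rfl <;> rcases hρ with rfl | rfl <;> norm_num
  have hne : ∀ t, 0 ≤ t → |h t| ≤ 1 → v t ≠ 0 := fun t _ ht =>
    mul_ne_zero hερ (hcmp t ht).2.2
  have B1 := fun T => pos_of_le (T := T) hder hvc (abs_le.1 h0).1 v0 hne
  by_cases hex : ∃ t, 0 ≤ t ∧ 1 ≤ h t
  · obtain ⟨t0, ht0, ht1⟩ := hex
    have hcomp : IsCompact (Icc 0 t0 ∩ {t | 1 ≤ h t}) :=
      isCompact_Icc.inter_right (isClosed_le continuous_const hhc)
    obtain ⟨T, ⟨hT, hT1⟩, hleast⟩ := hcomp.exists_isLeast ⟨t0, right_mem_Icc.2 ht0, ht1⟩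
    have hT1' : 1 ≤ h T := hT1
    have hlt : ∀ t ∈ Icc 0 T, t ≠ T → h t < 1 := by
      intro t ht hne'
      by_contra hc
      push Not at hc
      exact hne' (le_antisymm ht.2 (hleast ⟨⟨ht.1, ht.2.trans hT.2⟩, hc⟩))
    have hTeq : h T = 1 := by
      obtain ⟨u, hu, hu1⟩ := intermediate_value_Icc hT.1 hhc.continuousOn
        (show (1 : ℝ) ∈ Icc (h 0) (h T) from ⟨(abs_le.1 h0).2, hT1'⟩)
      by_cases huT : u = T
      · rw [← huT]; exact hu1
      · exact absurd hu1 (hlt u hu huT).ne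
    have hle : ∀ t ∈ Icc 0 T, h t ≤ 1 := by
      intro t ht
      by_cases htT : t = T
      · rw [htT, hTeq]
      · exact (hlt t ht htT).le
    refine ⟨T, hT.1, hTeq, fun t ht => ?_⟩
    obtain ⟨a, b⟩ := B1 T hle t ht
    refine ⟨?_, a⟩
    rw [← habs, abs_le]
    exact ⟨(abs_le.1 h0).1.trans b, hle t ht⟩
  · exfalso
    push Not at hex
    have hall : ∀ t, 0 ≤ t → 0 < v t ∧ h 0 ≤ h t := fun t ht =>
      B1 t (fun u hu => (hex u hu.1).le) t (right_mem_Icc.2 ht)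
    have habs1 : ∀ t, 0 ≤ t → |h t| ≤ 1 := fun t ht =>
      abs_le.2 ⟨(abs_le.1 h0).1.trans (hall t ht).2, (hex t ht).le⟩
    have hN : 0 ≤ N0 δ 1 := by
      have hδ2 : 0 < δ ^ 2 := by positivity
      have := N0_ge hδ zero_le_one (show (1 : ℝ) < 1 + δ ^ 2 by linarith)
      linarith
    have hvabs : ∀ t, 0 ≤ t → |(LF d m (Φ (ρ * t) p)).z| = v t := by
      intro t ht
      have h1 : |v t| = |(LF d m (Φ (ρ * t) p)).z| := by
        show |ε * ρ * Vy d m (Φ (ρ * t) p)| = |Vy d m (Φ (ρ * t) p)|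
        rw [abs_mul, abs_mul, abs_sign hε, abs_sign hρ, one_mul, one_mul]
      rw [← h1, abs_of_pos (hall t ht).1]
    have hdiff : ∀ t, 0 ≤ t → h t - h 0 ≤ 2 := by
      intro t ht
      have a := (abs_le.1 (habs1 t ht)).2
      have b := (abs_le.1 h0).1
      linarith
    have yb : ∀ t, 0 ≤ t → |(Φ (ρ * t) p).y| ≤ |p.y| + N0 δ 1 * 2 := by
      intro t ht
      have h1 := incr_le (N := N0 δ 1) hder (fun t => F.hy p ρ t) ht (by
        intro u hu
        rw [abs_mul, abs_sign hρ, one_mul, ← hvabs u hu.1]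
        exact (hcmp u (habs1 u hu.1)).1)
      simp only [hp0] at h1
      have h2 : N0 δ 1 * (h t - h 0) ≤ N0 δ 1 * 2 := mul_le_mul_of_nonneg_left (hdiff t ht) hN
      have h3 := abs_sub_abs_le_abs_sub (Φ (ρ * t) p).y p.y
      linarith
    have xb : ∀ t, 0 ≤ t → |(Φ (ρ * t) p).x| ≤ |p.x| + N0 δ 1 * 2 := by
      intro t ht
      have h1 := incr_le (N := N0 δ 1) hder (fun t => F.hx p ρ t) ht (by
        intro u hu
        rw [abs_mul, abs_sign hρ, one_mul, ← hvabs u hu.1]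
        exact (hcmp u (habs1 u hu.1)).2.1)
      simp only [hp0] at h1
      have h2 : N0 δ 1 * (h t - h 0) ≤ N0 δ 1 * 2 := mul_le_mul_of_nonneg_left (hdiff t ht) hN
      have h3 := abs_sub_abs_le_abs_sub (Φ (ρ * t) p).x p.x
      linarith
    set Y : ℝ := |p.y| + N0 δ 1 * 2 with hY
    set X : ℝ := |p.x| + N0 δ 1 * 2 with hX
    set K : Set (ℝ × ℝ × ℝ) := ((Icc (-1) 1) ×ˢ ((Icc (-Y) Y) ×ˢ (Icc (-X) X))) ∩
      ({w | OnS δ (ofL w)} ∩ {w | (orb d (ofL w) m).y = (orb d p m).y}) with hK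
    have hKc : IsCompact K := by
      refine (isCompact_Icc.prod (isCompact_Icc.prod isCompact_Icc)).inter_right
        (IsClosed.inter ?_ ?_)
      · have c1 : Continuous fun w : ℝ × ℝ × ℝ => (ofL w).x ^ 2 + (ofL w).y ^ 2 + (ofL w).z ^ 2 -
            2 * (ofL w).x * (ofL w).y * (ofL w).z := by
          unfold ofL; simp only; fun_prop
        exact isClosed_eq c1 continuous_const
      · exact isClosed_eq (cont_toL_y (cont_orb d m)) continuous_const
    have hmem : ∀ t, 0 ≤ t → toL (Φ (ρ * t) p) ∈ K := by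
      intro t ht
      refine ⟨⟨?_, ?_, ?_⟩, ?_, ?_⟩
      · exact abs_le.1 ((habs t).symm.le.trans (habs1 t ht))
      · exact abs_le.1 (yb t ht)
      · exact abs_le.1 (xb t ht)
      · show OnS δ (ofL (toL (Φ (ρ * t) p)))
        rw [ofL_toL]; exact F.onS δ p _ hS
      · show (orb d (ofL (toL (Φ (ρ * t) p))) m).y = _
        rw [ofL_toL, F.lev]
    obtain ⟨w0, hw0, hmin⟩ := hKc.exists_isMinOn ⟨_, hmem 0 le_rfl⟩
      ((cont_Vy d m).abs.continuousOn)
    set c : ℝ := |Vy d m (ofL w0)| with hc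
    have hcpos : 0 < c := by
      rw [hc, abs_pos]
      obtain ⟨⟨k1, -, -⟩, k2, k3⟩ := hw0
      have k3' : (orb d (ofL w0) m).y = (orb d p m).y := k3
      exact (cmp1 hδ hd hm k2 (abs_le.2 k1) (by rw [k3']; exact hf)).2.2
    have hvc' : ∀ t, 0 ≤ t → c ≤ v t := by
      intro t ht
      have h1 := hmin (hmem t ht)
      simp only [mem_setOf_eq, ofL_toL] at h1
      rw [← hvabs t ht]
      exact h1
    have h3 : 0 ≤ 3 / c := by positivity
    have h4 := incr_le (h := h) (v := v) (y := fun t => c * t) (w := fun _ => c) (N := 1) hder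
      (fun t => by simpa using (hasDerivAt_id t).const_mul c) h3 (by
        intro u hu
        rw [abs_of_pos hcpos, one_mul]
        exact hvc' u hu.1)
    have h5 : c * (3 / c) = 3 := by field_simp
    rw [h5, mul_zero, sub_zero, one_mul] at h4
    have h6 := hdiff _ h3
    have h7 : |(3 : ℝ)| = 3 := abs_of_pos (by norm_num)
    rw [h7] at h4
    linarith

end flow

theorem leafEx (h : TFlow) : TLeafEx := by
  intro δ hδ d hd m hm p hS hz hf
  obtain ⟨Φ, F⟩ := exists_fl h d m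
  have hne := (cmp1 hδ hd hm hS hz hf).2.2
  obtain ⟨σ, hσ, hσv⟩ : ∃ σ : ℝ, (σ = 1 ∨ σ = -1) ∧ 0 < σ * Vy d m p := by
    rcases lt_or_gt_of_ne hne with h1 | h1
    · exact ⟨-1, Or.inr rfl, by linarith⟩
    · exact ⟨1, Or.inl rfl, by linarith⟩
  obtain ⟨T1, hT1, e1, k1⟩ := exists_exit F hδ hd hm hS hz hf (ε := 1) (ρ := σ) (Or.inl rfl) hσ
    (by rw [one_mul]; exact hσv)
  obtain ⟨T2, hT2, e2, k2⟩ := exists_exit F hδ hd hm hS hz hf (ε := -1) (ρ := -σ) (Or.inr rfl)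
    (by rcases hσ with rfl | rfl
        · exact Or.inr rfl
        · exact Or.inl (by norm_num)) (by
      have : (-1 : ℝ) * -σ * Vy d m p = σ * Vy d m p := by ring
      rw [this]; exact hσv)
  have hmem : ∀ τ ∈ uIcc (-σ * T2) (σ * T1), |(Φ τ p).z| ≤ 1 := by
    intro τ hτ
    rcases hσ with rfl | rfl
    · rw [uIcc_of_le (by linarith)] at hτ
      by_cases h0 : 0 ≤ τ
      · have := (k1 τ ⟨h0, by linarith [hτ.2]⟩).1
        rwa [one_mul] at this
      · have := (k2 (-τ) ⟨by linarith, by linarith [hτ.1]⟩).1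
        rwa [show (-1 : ℝ) * -τ = τ by ring] at this
    · rw [uIcc_of_ge (by linarith)] at hτ
      by_cases h0 : 0 ≤ τ
      · have := (k2 τ ⟨h0, by linarith [hτ.2]⟩).1
        rwa [show - -(1 : ℝ) * τ = τ by ring] at this
      · have := (k1 (-τ) ⟨by linarith, by linarith [hτ.1]⟩).1
        rwa [show (-1 : ℝ) * -τ = τ by ring] at this
  refine ⟨fun τ => Φ τ p, -σ * T2, σ * T1, ⟨fun τ _ => F.der p τ, fun τ _ => F.onS δ p τ hS,
    hmem, fun τ _ => ?_⟩, ?_, F.zero p, ?_, ?_⟩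
  · show (orb d (Φ τ p) m).y = (orb d (Φ (-σ * T2) p) m).y
    rw [F.lev, F.lev]
  · rcases hσ with rfl | rfl
    · rw [uIcc_of_le (by linarith)]
      exact ⟨by linarith, by linarith⟩
    · rw [uIcc_of_ge (by linarith)]
      exact ⟨by linarith, by linarith⟩
  · show (Φ (-σ * T2) p).z = -1
    linarith
  · show (Φ (σ * T1) p).z = 1
    linarith

end Pool.Agent.W366.Stu
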